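import Pool.Agent.Helper99.PG.Goals1

/-!
PROJECT C2 (MP_2b0227_gt), packet PG-3T: the three terms relation of the counts of a multigraph.
-/

namespace Pool.Agent.Helper70.PG

open Finset Pool.Agent.Helper68 Pool.Agent.Helper68.SK Pool.Agent.Helper99.PG

theorem ncard_shift {D D' : Type} [Fintype D] [DecidableEq D'] (f : D → D') (J : Set (D → ℤ))
    (w : D' → ℤ) (d : D → ℤ) (hadd : ∀ z w : D → ℤ, push f (z + w) = push f z + push f w) :
    Set.ncard {z | z ∈ J ∧ push f z = w + push f d} =
      Set.ncard {y | push f y = w ∧ y + d ∈ J} := by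
  have h : {z | z ∈ J ∧ push f z = w + push f d} =
      (fun y => y + d) '' {y | push f y = w ∧ y + d ∈ J} := by
    ext z
    constructor
    · rintro ⟨h1, h2⟩
      refine ⟨z - d, ⟨?_, ?_⟩, ?_⟩
      · have := hadd (z - d) d
        rw [sub_add_cancel, h2] at this
        exact (add_right_cancel this).symm
      · rw [sub_add_cancel]; exact h1
      · show z - d + d = z
        rw [sub_add_cancel]
    · rintro ⟨y, ⟨h1, h2⟩, rfl⟩
      refine ⟨h2, ?_⟩
      show push f (y + d) = _
      rw [hadd, h1]
  rw [h, Set.ncard_image_of_injective]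
  exact add_left_injective d

theorem three : GoalThree := by
  intro hsub hfin V E _ _ _ _ g c k e hu hv n hn hne i
  obtain ⟨hs1, hs2⟩ := hsub
  obtain ⟨ptot, padd, psub, pδ⟩ := hs2 (V ⊕ E) (Bool ⊕ E) (col E c)
  set w : Bool ⊕ E → ℤ := fun b => match b with
    | .inl true => i + k - 1
    | .inl false => ∑ e', n e' + 1 - (i + k)
    | .inr e' => - n e' with hw
  set u := (g e).1 with hu'
  set v := (g e).2 with hv'
  have hcu : col E c (.inl u) = (.inl true : Bool ⊕ E) := by simp [col, hu]
  have hcv : col E c (.inl v) = (.inl false : Bool ⊕ E) := by simp [col, hv]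
  have hce : col E c (.inr e) = (.inr e : Bool ⊕ E) := by simp [col]
  have w1 : wt k (n + Pi.single e 1) i =
      w + push (col E c) (δ (.inl u) + δ (.inl v) - δ (.inr e)) := by
    rw [psub, padd, pδ, pδ, pδ, hcu, hcv, hce]
    funext b
    rcases b with (b | b) | e'
    · simp [wt, hw, δ, Finset.sum_add_distrib]; ring
    · simp [wt, hw, δ]
    · by_cases h : e' = e
      · subst h; simp [wt, hw, δ]; ring
      · simp [wt, hw, δ, h]
  have w2 : wt k (n - Pi.single e 1) (i - 1) = w + push (col E c) (δ (.inr e)) := by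
    rw [pδ, hce]
    funext b
    rcases b with (b | b) | e'
    · simp [wt, hw, δ, Finset.sum_sub_distrib]; ring
    · simp [wt, hw, δ]; ring
    · by_cases h : e' = e
      · subst h; simp [wt, hw, δ]; ring
      · simp [wt, hw, δ, h]
  have w3 : wt k n i = w + push (col E c) (δ (.inl u)) := by
    rw [pδ, hcu]
    funext b
    rcases b with (b | b) | e'
    · simp [wt, hw, δ]
    · simp [wt, hw, δ]
    · simp [wt, hw, δ]
  have w4 : wt k n (i - 1) = w + push (col E c) (δ (.inl v)) := by
    rw [pδ, hcv]
    funext b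
    rcases b with (b | b) | e'
    · simp [wt, hw, δ]; ring
    · simp [wt, hw, δ]; ring
    · simp [wt, hw, δ]
  have wtot : ∑ b, w b = 0 := by
    rw [Fintype.sum_sum_type, Fintype.sum_bool]
    simp [hw]
  -- the four counts
  have fin : ∀ d : V ⊕ E → ℤ, Set.Finite {y | push (col E c) y = w ∧ y + d ∈ JJ g} := by
    intro d
    have h := (hfin V E Bool g c).1 (w + push (col E c) d)
    refine Set.Finite.of_finite_image (f := fun y => y + d) ?_ (add_left_injective d).injOn
    refine h.subset ?_
    rintro _ ⟨y, ⟨h1, h2⟩, rfl⟩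
    refine ⟨h2, ?_⟩
    show push (col E c) (y + d) = _
    rw [padd, h1]
  -- properties of the base points
  have ytot : ∀ y : V ⊕ E → ℤ, push (col E c) y = w → ∑ a, y a = 0 := by
    intro y hy
    rw [← ptot, hy, wtot]
  have yedge : ∀ y : V ⊕ E → ℤ, push (col E c) y = w → ∀ e', y (.inr e') = - n e' := by
    intro y hy e'
    have h : push (col E c) y (.inr e') = y (.inr e') := by
      unfold push
      rw [Finset.sum_eq_single (Sum.inr e' : V ⊕ E)]
      · simp [col]
      · intro b _ hb
        rcases b with b | b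
        · simp [col]
        · rw [if_neg]
          intro hc
          apply hb
          simpa [col] using hc
      · intro h; exact absurd (Finset.mem_univ _) h
    rw [← h, hy]
  have tot1 : ∀ a : V ⊕ E, ∑ x, δ a x = 1 := by
    intro a; simp [δ]
  have hitu : ∀ U : Finset V, hit g U (.inl u) ↔ u ∈ U := fun U => Iff.rfl
  have hitv : ∀ U : Finset V, hit g U (.inl v) ↔ v ∈ U := fun U => Iff.rfl
  have hite : ∀ U : Finset V, hit g U (.inr e) ↔ (u ∈ U ∨ v ∈ U) := fun U => Iff.rfl
  have mass1 : ∀ (y : V ⊕ E → ℤ) (a : V ⊕ E) (U : Finset V),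
      mass g (y + δ a) U = mass g y U + if hit g U a then 1 else 0 :=
    fun y a U => (hs1 V E g y).2.2.2.1 U a
  have mass2 : ∀ (y : V ⊕ E → ℤ) (a : V ⊕ E) (U : Finset V),
      mass g (y - δ a) U = mass g y U - if hit g U a then 1 else 0 :=
    fun y a U => (hs1 V E g y).2.2.2.2.1 U a
  have Je : ∀ y : V ⊕ E → ℤ, push (col E c) y = w → (y + δ (.inr e) ∈ JJ g ↔
      ∀ U : Finset V, U.Nonempty → U ≠ univ →
        mass g y U + (if (u ∈ U ∨ v ∈ U) then 1 else 0) ≤ 0) := by
    intro y hy
    constructor
    · intro h U h1 h2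
      have := h.2 U h1 h2
      rw [mass1] at this
      simpa only [hite] using this
    · intro h
      refine ⟨?_, fun U h1 h2 => ?_⟩
      · simp only [Pi.add_apply, Finset.sum_add_distrib, ytot y hy, tot1]; rfl
      · rw [mass1]
        simpa only [hite] using h U h1 h2
  have Ju : ∀ y : V ⊕ E → ℤ, push (col E c) y = w → (y + δ (.inl u) ∈ JJ g ↔
      ∀ U : Finset V, U.Nonempty → U ≠ univ →
        mass g y U + (if u ∈ U then 1 else 0) ≤ 0) := by
    intro y hy
    constructor
    · intro h U h1 h2
      have := h.2 U h1 h2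
      rw [mass1] at this
      simpa only [hitu] using this
    · intro h
      refine ⟨?_, fun U h1 h2 => ?_⟩
      · simp only [Pi.add_apply, Finset.sum_add_distrib, ytot y hy, tot1]; rfl
      · rw [mass1]
        simpa only [hitu] using h U h1 h2
  have Jv : ∀ y : V ⊕ E → ℤ, push (col E c) y = w → (y + δ (.inl v) ∈ JJ g ↔
      ∀ U : Finset V, U.Nonempty → U ≠ univ →
        mass g y U + (if v ∈ U then 1 else 0) ≤ 0) := by
    intro y hy
    constructor
    · intro h U h1 h2
      have := h.2 U h1 h2
      rw [mass1] at this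
      simpa only [hitv] using this
    · intro h
      refine ⟨?_, fun U h1 h2 => ?_⟩
      · simp only [Pi.add_apply, Finset.sum_add_distrib, ytot y hy, tot1]; rfl
      · rw [mass1]
        simpa only [hitv] using h U h1 h2
  have Juv : ∀ y : V ⊕ E → ℤ, push (col E c) y = w →
      (y + (δ (.inl u) + δ (.inl v) - δ (.inr e)) ∈ JJ g ↔
      ∀ U : Finset V, U.Nonempty → U ≠ univ →
        mass g y U + (if (u ∈ U ∧ v ∈ U) then 1 else 0) ≤ 0) := by
    intro y hy
    have hm : ∀ U : Finset V, mass g (y + (δ (.inl u) + δ (.inl v) - δ (.inr e))) U =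
        mass g y U + (if (u ∈ U ∧ v ∈ U) then 1 else 0) := by
      intro U
      rw [← add_sub_assoc, ← add_assoc, mass2, mass1, mass1]
      simp only [hitu, hitv, hite]
      by_cases h1 : u ∈ U <;> by_cases h2 : v ∈ U <;> simp [h1, h2]
    constructor
    · intro h U h1 h2
      have := h.2 U h1 h2
      rwa [hm] at this
    · intro h
      refine ⟨?_, fun U h1 h2 => ?_⟩
      · simp only [Pi.add_apply, Pi.sub_apply, Finset.sum_add_distrib, Finset.sum_sub_distrib,
          ytot y hy, tot1]; rfl
      · rw [hm]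
        exact h U h1 h2
  have hI : {y | push (col E c) y = w ∧ y + δ (.inr e) ∈ JJ g} =
      {y | push (col E c) y = w ∧ y + δ (.inl u) ∈ JJ g} ∩
        {y | push (col E c) y = w ∧ y + δ (.inl v) ∈ JJ g} := by
    ext y
    simp only [Set.mem_ofPred_eq, Set.mem_inter_iff]
    constructor
    · rintro ⟨hy, h⟩
      rw [Je y hy] at h
      refine ⟨⟨hy, (Ju y hy).2 fun U h1 h2 => ?_⟩, ⟨hy, (Jv y hy).2 fun U h1 h2 => ?_⟩⟩
      · have := h U h1 h2
        by_cases h3 : u ∈ U
        · simp only [h3, true_or, if_true] at this ⊢; exact this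
        · simp only [h3, if_false]
          split_ifs at this <;> omega
      · have := h U h1 h2
        by_cases h3 : v ∈ U
        · simp only [h3, or_true, if_true] at this ⊢; exact this
        · simp only [h3, if_false]
          split_ifs at this <;> omega
    · rintro ⟨⟨hy, h1⟩, ⟨-, h2⟩⟩
      refine ⟨hy, (Je y hy).2 fun U h3 h4 => ?_⟩
      have a1 := (Ju y hy).1 h1 U h3 h4
      have a2 := (Jv y hy).1 h2 U h3 h4
      by_cases h5 : u ∈ U
      · simp only [h5, true_or, if_true] at a1 ⊢; exact a1
      · by_cases h6 : v ∈ U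
        · simp only [h6, or_true, if_true] at a2 ⊢; exact a2
        · simp only [h5, h6, or_self, if_false] at a1 ⊢; exact a1
  have hU : {y | push (col E c) y = w ∧ y + (δ (.inl u) + δ (.inl v) - δ (.inr e)) ∈ JJ g} =
      {y | push (col E c) y = w ∧ y + δ (.inl u) ∈ JJ g} ∪
        {y | push (col E c) y = w ∧ y + δ (.inl v) ∈ JJ g} := by
    ext y
    simp only [Set.mem_ofPred_eq, Set.mem_union]
    constructor
    · rintro ⟨hy, h⟩
      rw [Juv y hy] at h
      by_contra hcon
      have c1 : ¬ (y + δ (.inl u) ∈ JJ g) := fun h' => hcon (Or.inl ⟨hy, h'⟩)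
      have c2 : ¬ (y + δ (.inl v) ∈ JJ g) := fun h' => hcon (Or.inr ⟨hy, h'⟩)
      rw [Ju y hy] at c1
      rw [Jv y hy] at c2
      push Not at c1 c2
      obtain ⟨U1, hU1, hU1', hm1⟩ := c1
      obtain ⟨U2, hU2, hU2', hm2⟩ := c2
      have b1 := h U1 hU1 hU1'
      have b2 := h U2 hU2 hU2'
      have u1 : u ∈ U1 := by
        by_contra h3
        simp only [h3, false_and, if_false] at b1 hm1
        omega
      have v1 : v ∉ U1 := by
        intro h3
        simp only [u1, h3, and_self, if_true] at b1 hm1
        omega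
      have v2 : v ∈ U2 := by
        by_contra h3
        simp only [h3, and_false, if_false] at b2 hm2
        omega
      have u2 : u ∉ U2 := by
        intro h3
        simp only [v2, h3, and_self, if_true] at b2 hm2
        omega
      simp only [u1, v1, and_false, if_false, if_true] at b1 hm1
      simp only [u2, v2, false_and, if_false, if_true] at b2 hm2
      have hneg : ∀ e', y (.inr e') ≤ 0 := by
        intro e'
        rw [yedge y hy e']
        have := hn e'
        omega
      have key := (hs1 V E g y).2.2.1 U1 U2 e hneg ((hite U1).2 (Or.inl u1))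
        ((hite U2).2 (Or.inr v2)) (by
          rw [hite]
          rintro (h3 | h3)
          · exact u2 (Finset.mem_inter.1 h3).2
          · exact v1 (Finset.mem_inter.1 h3).1)
      rw [yedge y hy e] at key
      have k1 : mass g y (U1 ∪ U2) ≤ 0 := by
        by_cases h3 : U1 ∪ U2 = univ
        · rw [h3, (hs1 V E g y).2.2.2.2.2.2, ytot y hy]
        · have := h (U1 ∪ U2) (hU1.mono Finset.subset_union_left) h3
          split_ifs at this <;> omega
      have k2 : mass g y (U1 ∩ U2) ≤ 0 := by
        by_cases h3 : (U1 ∩ U2).Nonempty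
        · have := h (U1 ∩ U2) h3 (by
            intro h4
            have : u ∈ U1 ∩ U2 := by rw [h4]; exact Finset.mem_univ _
            exact u2 (Finset.mem_inter.1 this).2)
          split_ifs at this <;> omega
        · rw [Finset.not_nonempty_iff_eq_empty] at h3
          rw [h3, (hs1 V E g y).2.2.2.2.2.1]
      omega
    · rintro (⟨hy, h⟩ | ⟨hy, h⟩)
      · refine ⟨hy, (Juv y hy).2 fun U h1 h2 => ?_⟩
        have := (Ju y hy).1 h U h1 h2
        by_cases h3 : u ∈ U <;> by_cases h4 : v ∈ U <;>
          simp only [h3, h4, and_true, and_false, false_and, and_self, if_true, if_false]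
            at this ⊢ <;> omega
      · refine ⟨hy, (Juv y hy).2 fun U h1 h2 => ?_⟩
        have := (Jv y hy).1 h U h1 h2
        by_cases h3 : u ∈ U <;> by_cases h4 : v ∈ U <;>
          simp only [h3, h4, and_true, and_false, false_and, and_self, if_true, if_false]
            at this ⊢ <;> omega
  have c1 : SK.cnt g c (w + push (col E c) (δ (.inl u) + δ (.inl v) - δ (.inr e))) =
      (Set.ncard ({y | push (col E c) y = w ∧ y + δ (.inl u) ∈ JJ g} ∪
        {y | push (col E c) y = w ∧ y + δ (.inl v) ∈ JJ g}) : ℝ) := by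
    unfold SK.cnt
    rw [ncard_shift _ _ _ _ padd, hU]
  have c2 : SK.cnt g c (w + push (col E c) (δ (.inr e))) =
      (Set.ncard ({y | push (col E c) y = w ∧ y + δ (.inl u) ∈ JJ g} ∩
        {y | push (col E c) y = w ∧ y + δ (.inl v) ∈ JJ g}) : ℝ) := by
    unfold SK.cnt
    rw [ncard_shift _ _ _ _ padd, hI]
  have c3 : SK.cnt g c (w + push (col E c) (δ (.inl u))) =
      (Set.ncard {y | push (col E c) y = w ∧ y + δ (.inl u) ∈ JJ g} : ℝ) := by
    unfold SK.cnt
    rw [ncard_shift _ _ _ _ padd]
  have c4 : SK.cnt g c (w + push (col E c) (δ (.inl v))) =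
      (Set.ncard {y | push (col E c) y = w ∧ y + δ (.inl v) ∈ JJ g} : ℝ) := by
    unfold SK.cnt
    rw [ncard_shift _ _ _ _ padd]
  rw [w1, w2, w3, w4, c1, c2, c3, c4]
  have := Set.ncard_union_add_ncard_inter
    {y | push (col E c) y = w ∧ y + δ (.inl u) ∈ JJ g}
    {y | push (col E c) y = w ∧ y + δ (.inl v) ∈ JJ g} (fin _) (fin _)
  exact_mod_cast this

end Pool.Agent.Helper70.PG
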